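import Mathlib

namespace Pool.Agent.Results.MP_007c2d_nt.NonSquare

/-- The sequence `F₀ = a`, `F₁ = b`, `F_{n+2} = F_{n+1} + F_n`. -/
def G (a b : ℤ) : ℕ → ℤ
  | 0 => a
  | 1 => b
  | (n + 2) => G a b (n + 1) + G a b n

/-- The `(a,b)`-Pisano period: least positive period of the sequence modulo `p`. -/
noncomputable def pisano (a b : ℤ) (p : ℕ) : ℕ :=
  sInf {t : ℕ | 0 < t ∧ ∀ n, ((G a b (n + t) : ℤ) : ZMod p) = ((G a b n : ℤ) : ZMod p)}

/-- `N_i`: the number of indices `0 ≤ n < π_p(a,b)` with Legendre symbol `(F_n / p) = i`. -/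
noncomputable def N (a b : ℤ) (p : ℕ) [Fact p.Prime] (i : ℤ) : ℕ :=
  ((Finset.range (pisano a b p)).filter (fun n => legendreSym p (G a b n) = i)).card

/-- `p` is a `k`-PL prime for `(a,b)`: an odd prime with `N₁ - N₋₁ - N₀ = k`. -/
def IsPL (a b : ℤ) (k : ℤ) (p : ℕ) : Prop :=
  ∃ h : Fact p.Prime, p ≠ 2 ∧
    (@N a b p h 1 : ℤ) - (@N a b p h (-1) : ℤ) - (@N a b p h 0 : ℤ) = k

lemma G_add (a b : ℤ) (n k : ℕ) :
    G a b (n + k + 1) = Nat.fib k * G a b n + Nat.fib (k + 1) * G a b (n + 1) := by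
  induction k using Nat.twoStepInduction with
  | zero => simp
  | one =>
    have : G a b (n + 1 + 1) = G a b (n + 1) + G a b n := rfl
    rw [this]; simp [add_comm]
  | more k h1 h2 =>
    have : G a b (n + (k + 2) + 1) = G a b (n + (k + 1) + 1) + G a b (n + k + 1) := rfl
    rw [this, h1, h2]
    have e1 : (Nat.fib (k + 2) : ℤ) = Nat.fib k + Nat.fib (k + 1) := by
      rw [Nat.fib_add_two]; push_cast; ring
    have e2 : (Nat.fib (k + 2 + 1) : ℤ) = Nat.fib (k + 1) + Nat.fib (k + 1 + 1) := by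
      rw [show k + 2 + 1 = (k + 1) + 2 by ring, Nat.fib_add_two]; push_cast; ring
    rw [e2, show k + 1 + 1 = k + 2 by ring, e1]; ring

lemma cassini (k : ℕ) :
    (Nat.fib (k + 1) : ℤ) ^ 2 - Nat.fib (k + 1) * Nat.fib k - Nat.fib k ^ 2 = (-1) ^ k := by
  induction k with
  | zero => simp
  | succ k ih =>
    have e1 : (Nat.fib (k + 1 + 1) : ℤ) = Nat.fib k + Nat.fib (k + 1) := by
      rw [show k + 1 + 1 = k + 2 by ring, Nat.fib_add_two]; push_cast; ring
    rw [e1, pow_succ (-1 : ℤ) k, ← ih]; ring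

lemma csq (p k : ℕ) (hk : Even k) (h : p ∣ Nat.fib (k + 1)) :
    ((Nat.fib k : ℕ) : ZMod p) ^ 2 = -1 := by
  have h0 : ((Nat.fib (k + 1) : ℕ) : ZMod p) = 0 := (ZMod.natCast_eq_zero_iff _ _).2 h
  have h1 := congrArg (Int.cast : ℤ → ZMod p) (cassini k)
  rw [hk.neg_one_pow] at h1
  push_cast at h1
  rw [h0] at h1
  linear_combination -h1

lemma key (a b : ℤ) (p : ℕ) (hp : p.Prime) (h8 : p % 8 = 5) (q : ℕ) (hq : Odd q)
    (hd : p ∣ Nat.fib q) (j : ℕ) (hj : ∀ n, ¬ (p : ℤ) ∣ G a b (n + j)) : IsPL a b 0 p := by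
  have hF := Fact.mk hp
  obtain ⟨k, rfl⟩ := hq
  set c : ZMod p := ((Nat.fib (2 * k) : ℕ) : ZMod p) with hc
  have hc2 : c ^ 2 = -1 := csq p (2 * k) (even_two_mul k) hd
  have h0 : ((Nat.fib (2 * k + 1) : ℕ) : ZMod p) = 0 := (ZMod.natCast_eq_zero_iff _ _).2 hd
  have hs : ∀ n, ((G a b (n + (2 * k + 1)) : ℤ) : ZMod p) = c * (G a b n : ℤ) := by
    intro n
    rw [← add_assoc, G_add]
    push_cast
    rw [h0]; ring
  have hst : ∀ t n, ((G a b (n + t * (2 * k + 1)) : ℤ) : ZMod p) = c ^ t * (G a b n : ℤ) := by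
    intro t n
    induction t with
    | zero => simp
    | succ t ih => rw [add_mul, one_mul, ← add_assoc, hs, ih]; ring
  have hne : ∀ n, ((G a b n : ℤ) : ZMod p) ≠ 0 := by
    intro n h
    apply hj (n + j * (2 * k))
    rw [← ZMod.intCast_zmod_eq_zero_iff_dvd, show n + j * (2 * k) + j = n + j * (2 * k + 1) by ring,
      hst, h, mul_zero]
  have hmem : pisano a b p ∈ {t : ℕ | 0 < t ∧ ∀ n,
      ((G a b (n + t) : ℤ) : ZMod p) = ((G a b n : ℤ) : ZMod p)} := by
    apply Nat.sInf_mem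
    refine ⟨4 * (2 * k + 1), by positivity, fun n => ?_⟩
    rw [hst, show c ^ 4 = (c ^ 2) ^ 2 by ring, hc2]; ring
  have hm1 : (-1 : ZMod p) ≠ 1 := by
    have : Fact (2 < p) := ⟨by omega⟩
    exact ZMod.neg_one_ne_one
  have hc0 : c ≠ 0 := by
    intro h; rw [h] at hc2; simp at hc2
  have hχ : quadraticChar (ZMod p) c = -1 := by
    rw [quadraticChar_neg_one_iff_not_isSquare, ZMod.euler_criterion p hc0]
    have : p / 2 = 2 * (2 * (p / 8) + 1) := by omega
    rw [this, pow_mul, hc2, Odd.neg_one_pow ⟨p / 8, rfl⟩]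
    exact hm1
  set f : ℕ → ℤ := fun n => legendreSym p (G a b n) with hf
  have hf1 : ∀ n, f (n + (2 * k + 1)) = - f n := by
    intro n
    simp only [hf, legendreSym]
    rw [hs, map_mul, hχ]; ring
  have hf2 : ∀ n, f (n + pisano a b p) = f n := by
    intro n
    simp only [hf, legendreSym]
    rw [hmem.2]
  have hsh : ∀ s, ∑ n ∈ Finset.range (pisano a b p), f (n + s) =
      ∑ n ∈ Finset.range (pisano a b p), f n := by
    intro s
    induction s with
    | zero => simp
    | succ s ih =>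
      have e1 := Finset.sum_range_succ (fun n => f (n + s)) (pisano a b p)
      have e2 := Finset.sum_range_succ' (fun n => f (n + s)) (pisano a b p)
      have e3 : f (pisano a b p + s) = f (0 + s) := by rw [add_comm, hf2, zero_add]
      have e4 : ∑ n ∈ Finset.range (pisano a b p), f (n + (s + 1)) =
          ∑ n ∈ Finset.range (pisano a b p), f (n + 1 + s) :=
        Finset.sum_congr rfl (fun n _ => by rw [show n + (s + 1) = n + 1 + s by ring])
      linarith
  have hS : ∑ n ∈ Finset.range (pisano a b p), f n = 0 := by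
    have := hsh (2 * k + 1)
    simp only [hf1, Finset.sum_neg_distrib] at this
    linarith
  refine ⟨hF, by omega, ?_⟩
  simp only [N, Finset.card_filter]
  push_cast
  rw [← Finset.sum_sub_distrib, ← Finset.sum_sub_distrib]
  refine Eq.trans (Finset.sum_congr rfl (fun n _ => ?_)) hS
  rcases legendreSym.eq_one_or_neg_one p (hne n) with h | h <;> simp [hf, h]

lemma binet {K : Type*} [CommRing K] (x y : K) (hx : x ^ 2 = x + 1) (hy : y ^ 2 = y + 1) (n : ℕ) :
    (x - y) * (Nat.fib n : K) = x ^ n - y ^ n := by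
  induction n using Nat.twoStepInduction with
  | zero => simp
  | one => simp
  | more n h1 h2 =>
    rw [Nat.fib_add_two]; push_cast
    linear_combination h1 + h2 - x ^ n * hx + y ^ n * hy

lemma J5 (p : ℕ) (h : p % 40 = 13) : jacobiSym 5 p = -1 := by
  have := jacobiSym.mod_right' 5 (b := p) (Nat.odd_iff.2 (by omega))
  rw [show p % (4 * 5) = 13 by omega] at this
  push_cast at this
  rw [this]; norm_num

lemma J2 (p : ℕ) (h : p % 40 = 13) : jacobiSym 2 p = -1 := by
  have := jacobiSym.mod_right' 2 (b := p) (Nat.odd_iff.2 (by omega))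
  rw [show p % (4 * 2) = 5 by omega] at this
  push_cast at this
  rw [this]; norm_num

lemma fibdvd (p : ℕ) (hp : p.Prime) (h : p % 40 = 13) : p ∣ Nat.fib ((p + 1) / 2) := by
  have hF := Fact.mk hp
  obtain ⟨t, ht⟩ : ∃ t, p = 40 * t + 13 := ⟨p / 40, by omega⟩
  have h5 : (5 : ZMod p) ^ (p / 2) = -1 := by
    have h1 := legendreSym.eq_pow p 5
    rw [jacobiSym.legendreSym.to_jacobiSym, J5 p h] at h1
    push_cast at h1
    exact h1.symm
  let K := AlgebraicClosure (ZMod p)
  have h5K : (5 : K) ^ (p / 2) = -1 := by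
    have := congrArg (algebraMap (ZMod p) K) h5
    simpa [map_ofNat] using this
  obtain ⟨s, hs⟩ := IsAlgClosed.exists_pow_nat_eq (5 : K) (n := 2) (by norm_num)
  have h2 : (2 : K) ≠ 0 := by
    intro h0
    have : ((2 : ℕ) : K) = 0 := by exact_mod_cast h0
    have := Nat.le_of_dvd (by norm_num) ((CharP.cast_eq_zero_iff K p 2).1 this)
    omega
  have hs0 : s ≠ 0 := by
    rintro rfl
    have : ((5 : ℕ) : K) = 0 := by push_cast; rw [← hs]; simp
    have := Nat.le_of_dvd (by norm_num) ((CharP.cast_eq_zero_iff K p 5).1 this)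
    omega
  have hsp : s ^ p = -s := by
    have e : s ^ p = (s ^ 2) ^ (p / 2) * s := by
      rw [← pow_mul, ← pow_succ]; congr 1; omega
    rw [e, hs, h5K]; ring
  have h2p : (2 : K) ^ p = 2 := by
    have := add_pow_char (1 : K) 1 p
    norm_num at this
    exact this
  obtain ⟨w, hw⟩ : ∃ w : K, 2 * w = 1 := ⟨2⁻¹, mul_inv_cancel₀ h2⟩
  have hwp : w ^ p = w := by
    have e : (2 * w) ^ p = 1 := by rw [hw, one_pow]
    rw [mul_pow, h2p] at e
    linear_combination w * e - w ^ p * hw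
  obtain ⟨x, hx⟩ : ∃ x : K, x = (1 + s) * w := ⟨_, rfl⟩
  obtain ⟨y, hy⟩ : ∃ y : K, y = (1 - s) * w := ⟨_, rfl⟩
  have hxy : x * y = -1 := by
    rw [hx, hy]; linear_combination (-w ^ 2) * hs - (2 * w + 1) * hw
  have hx2 : x ^ 2 = x + 1 := by
    rw [hx]; linear_combination w ^ 2 * hs + (s * w + 3 * w + 1) * hw
  have hy2 : y ^ 2 = y + 1 := by
    rw [hy]; linear_combination w ^ 2 * hs + (-s * w + 3 * w + 1) * hw
  have hxp : x ^ p = y := by
    rw [hx, mul_pow, add_pow_char, hsp, hwp, one_pow, hy]; ring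
  have hm : (p + 1) / 2 = 2 * (10 * t + 3) + 1 := by omega
  set m := (p + 1) / 2 with hmdef
  have e1 : x ^ m * x ^ m = -1 := by
    rw [← pow_add, show m + m = p + 1 by omega, pow_succ, hxp, mul_comm, hxy]
  have e2 : x ^ m * y ^ m = -1 := by
    rw [← mul_pow, hxy, Odd.neg_one_pow ⟨_, hm⟩]
  have e3 : x ^ m = y ^ m := by
    linear_combination (-y ^ m) * e1 + x ^ m * e2
  have e4 := binet x y hx2 hy2 m
  have e5 : x - y = s := by rw [hx, hy]; linear_combination s * hw
  rw [e3, sub_self, e5] at e4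
  exact (CharP.cast_eq_zero_iff K p _).1 ((mul_eq_zero.1 e4).resolve_left hs0)

lemma inv (a b : ℤ) (n : ℕ) : G a b n ^ 2 + G a b n * G a b (n + 1) - G a b (n + 1) ^ 2 =
    (-1) ^ n * (a ^ 2 + a * b - b ^ 2) := by
  induction n with
  | zero => simp [G]
  | succ n ih =>
    have : G a b (n + 1 + 1) = G a b (n + 1) + G a b n := rfl
    rw [this, pow_succ (-1 : ℤ) n]; linear_combination -ih

lemma not10 (s : ℕ) : ∀ a b : ℤ, (a ^ 2 + a * b - b ^ 2).natAbs = s ^ 2 * 10 → s = 0 := by
  induction s using Nat.strong_induction_on with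
  | _ s ih =>
    intro a b h
    have h' : a ^ 2 + a * b - b ^ 2 = (s : ℤ) ^ 2 * 10 ∨ a ^ 2 + a * b - b ^ 2 = -((s : ℤ) ^ 2 * 10) := by
      have := Int.natAbs_eq_iff.1 h
      push_cast at this
      exact this
    have hev : Even (a ^ 2 + a * b - b ^ 2) := by
      rcases h' with h' | h' <;> rw [h']
      · exact ⟨(s : ℤ) ^ 2 * 5, by ring⟩
      · exact ⟨-((s : ℤ) ^ 2 * 5), by ring⟩
    have hab : Even a ∧ Even b := by
      rcases Int.even_or_odd a with ha | ha <;> rcases Int.even_or_odd b with hb | hb <;>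
        simp [parity_simps, ha, hb, Int.not_even_iff_odd.2] at hev ⊢
    obtain ⟨⟨a', rfl⟩, ⟨b', rfl⟩⟩ := hab
    have e : (a' + a') ^ 2 + (a' + a') * (b' + b') - (b' + b') ^ 2 = 4 * (a' ^ 2 + a' * b' - b' ^ 2) := by ring
    rw [e, Int.natAbs_mul] at h
    have h4 : (4 : ℤ).natAbs = 4 := rfl
    rw [h4] at h
    have hs : Even s := by
      have : Even (s ^ 2) := Nat.even_iff.2 (by omega)
      exact (Nat.even_pow.1 this).1
    obtain ⟨s', rfl⟩ := hs
    rcases Nat.eq_zero_or_pos s' with h0 | h0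
    · omega
    · have := ih s' (by omega) a' b' (by nlinarith)
      omega

lemma primes (e : ℕ) (he : Squarefree e) (h1 : e ≠ 1) (h10 : e ≠ 10) :
    {p : ℕ | p.Prime ∧ p % 40 = 13 ∧ jacobiSym e p = -1}.Infinite := by
  have hD := Nat.infinite_setOfPred_prime_and_modEq (q := 40) (a := 13) (by norm_num) (by norm_num)
  by_cases hl : ∃ l, l.Prime ∧ l ∣ e ∧ l ≠ 2 ∧ l ≠ 5
  · obtain ⟨l, hl, ⟨E, rfl⟩, hl2, hl5⟩ := hl
    have hF := Fact.mk hl
    have hE : E ≠ 0 := right_ne_zero_of_mul he.ne_zero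
    have hlE : Nat.Coprime l E := (Nat.squarefree_mul_iff.1 he).1
    obtain ⟨r, ⟨hr, hr40⟩, hrE⟩ := hD.exists_gt (40 * E)
    have hr40 : r % 40 = 13 := hr40
    have hrc : Nat.Coprime r (40 * E) :=
      (Nat.Prime.coprime_iff_not_dvd hr).2 (fun h => absurd (Nat.le_of_dvd (by positivity) h) (by omega))
    have hε : jacobiSym E r = 1 ∨ jacobiSym E r = -1 := by
      apply jacobiSym.eq_one_or_neg_one
      rw [Int.gcd_natCast_natCast]
      exact (Nat.Coprime.coprime_mul_left_right hrc).symm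
    obtain ⟨t, ht⟩ : ∃ t : ℕ, legendreSym l t = - jacobiSym E r := by
      rcases hε with h | h
      · obtain ⟨u, hu⟩ := FiniteField.exists_nonsquare (F := ZMod l)
          (by rw [ZMod.ringChar_zmod_n]; exact hl2)
        refine ⟨u.val, ?_⟩
        rw [h, legendreSym.eq_neg_one_iff]
        simpa using hu
      · exact ⟨1, by simp [h]⟩
    have htl : Nat.Coprime t l := by
      rw [Nat.coprime_comm, Nat.Prime.coprime_iff_not_dvd hl]
      intro hd
      have : legendreSym l t = 0 := by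
        rw [legendreSym.eq_zero_iff]
        simpa using (ZMod.natCast_eq_zero_iff t l).2 hd
      rcases hε with h | h <;> omega
    have hco : Nat.Coprime l (40 * E) := by
      refine Nat.Coprime.mul_right ?_ hlE
      rw [show 40 = 2 ^ 3 * 5 by norm_num]
      exact Nat.Coprime.mul_right
        (Nat.Coprime.pow_right _ ((Nat.coprime_primes hl Nat.prime_two).2 hl2))
        ((Nat.coprime_primes hl Nat.prime_five).2 hl5)
    obtain ⟨x, hx1, hx2⟩ := Nat.chineseRemainder hco t r
    have hxc : Nat.Coprime x (l * (40 * E)) := by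
      refine Nat.Coprime.mul_right ?_ ?_
      · unfold Nat.Coprime; rw [hx1.gcd_eq]; exact htl
      · unfold Nat.Coprime; rw [hx2.gcd_eq]; exact hrc
    refine (Nat.infinite_setOfPred_prime_and_modEq (q := l * (40 * E)) (a := x)
      (by have := hl.pos; positivity) hxc).mono ?_
    rintro p ⟨hp, hpx⟩
    have m1 : p ≡ t [MOD l] := (hpx.of_mul_right _).trans hx1
    have m2 : p ≡ r [MOD 40 * E] := (hpx.of_mul_left _).trans hx2
    have m3 : p % 40 = 13 := by
      have : p % 40 = r % 40 := m2.of_mul_right _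
      omega
    have m4 : p % (4 * E) = r % (4 * E) := m2.of_dvd ⟨10, by ring⟩
    refine ⟨hp, m3, ?_⟩
    have j1 : jacobiSym E p = jacobiSym E r := by
      rw [jacobiSym.mod_right' E (Nat.odd_iff.2 (by omega)), m4,
        ← jacobiSym.mod_right' E (Nat.odd_iff.2 (by omega))]
    have j2 : jacobiSym l p = - jacobiSym E r := by
      rw [← jacobiSym.quadratic_reciprocity_one_mod_four (a := p) (b := l) (by omega)
        (hl.odd_of_ne_two hl2), ← jacobiSym.legendreSym.to_jacobiSym, ← ht]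
      unfold legendreSym
      congr 1
      push_cast
      exact (ZMod.natCast_eq_natCast_iff _ _ _).2 m1
    push_cast
    rw [jacobiSym.mul_left, j1, j2]
    rcases hε with h | h <;> rw [h] <;> norm_num
  · push Not at hl
    have hsub : e.primeFactors ⊆ {2, 5} := by
      intro l hm
      have := hl l (Nat.prime_of_mem_primeFactors hm) (Nat.dvd_of_mem_primeFactors hm)
      simp only [Finset.mem_insert, Finset.mem_singleton]
      tauto
    have hd : e ∣ 10 := by
      rw [← Nat.prod_primeFactors_of_squarefree he]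
      simpa using Finset.prod_dvd_prod_of_subset _ _ (fun x : ℕ => x) hsub
    have hle := Nat.le_of_dvd (by norm_num) hd
    have h25 : e = 2 ∨ e = 5 := by
      interval_cases e <;> omega
    refine hD.mono ?_
    rintro p ⟨hp, h40⟩
    have h40 : p % 40 = 13 := h40
    rcases h25 with rfl | rfl
    · exact ⟨hp, h40, J2 p h40⟩
    · exact ⟨hp, h40, J5 p h40⟩

/-- If `|a² + ab - b²|` is not a perfect square, there are infinitely many `0`-PL primes
for `(a,b)`. -/
theorem result (a b : ℤ) (h : ¬ IsSquare (a ^ 2 + a * b - b ^ 2).natAbs) :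
    {p : ℕ | IsPL a b 0 p}.Infinite := by
  obtain ⟨e, s, hes, he⟩ := Nat.sq_mul_squarefree (a ^ 2 + a * b - b ^ 2).natAbs
  have hs : s ≠ 0 := by
    rintro rfl
    exact h ⟨0, by rw [← hes]; simp⟩
  have h1 : e ≠ 1 := by
    rintro rfl
    exact h ⟨s, by rw [← hes]; ring⟩
  have h10 : e ≠ 10 := by
    rintro rfl
    exact hs (not10 s a b hes.symm)
  refine ((primes e he h1 h10).sdiff (Set.finite_le_nat s)).mono ?_
  rintro p ⟨⟨hp, h40, hJ⟩, hle⟩
  have hF := Fact.mk hp
  refine key a b p hp (by omega) _ (Nat.odd_iff.2 (by omega)) (fibdvd p hp h40) 0 (fun n hn => ?_)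
  rw [add_zero, ← ZMod.intCast_zmod_eq_zero_iff_dvd] at hn
  have hs0 : (s : ZMod p) ≠ 0 := fun h0 =>
    hle (Nat.le_of_dvd (Nat.pos_of_ne_zero hs) ((ZMod.natCast_eq_zero_iff _ _).1 h0))
  rw [← jacobiSym.legendreSym.to_jacobiSym, legendreSym.eq_neg_one_iff] at hJ
  apply hJ
  obtain ⟨i, hi⟩ := ZMod.exists_sq_eq_neg_one_iff.2 (show p % 4 ≠ 3 by omega)
  have hI := congrArg (Int.cast : ℤ → ZMod p) (inv a b n)
  have hD : a ^ 2 + a * b - b ^ 2 = (s : ℤ) ^ 2 * e ∨ a ^ 2 + a * b - b ^ 2 = -((s : ℤ) ^ 2 * e) := by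
    have := Int.natAbs_eq_iff.1 hes.symm
    push_cast at this
    exact this
  set g : ZMod p := ((G a b (n + 1) : ℤ) : ZMod p) with hg
  have hsq : g ^ 2 = (s : ZMod p) ^ 2 * e ∨ g ^ 2 = -((s : ZMod p) ^ 2 * e) := by
    rcases hD with hD | hD <;> rw [hD] at hI <;> push_cast at hI <;> rw [hn] at hI <;>
      rcases neg_one_pow_eq_or (ZMod p) n with h' | h' <;> rw [h'] at hI
    · right; linear_combination -hI
    · left; linear_combination -hI
    · left; linear_combination -hI
    · right; linear_combination -hI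
  push_cast
  rcases hsq with h' | h'
  · refine ⟨g / s, ?_⟩
    field_simp
    linear_combination -h'
  · refine ⟨i * g / s, ?_⟩
    field_simp
    linear_combination h' + g ^ 2 * hi

end Pool.Agent.Results.MP_007c2d_nt.NonSquare
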